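import Pool.Agent.H918R3.BB.Step

set_option autoImplicit false

/-!
# The final theorems
-/

namespace Pool.Agent.H918R3.BB

open Pool.Agent.H32BU

universe u

/-- the largest group of exponent dividing `n` generated by `x₀, x₁, x₂` with
`x₀ ^ r = x₁ ^ s = x₂ ^ t = 1` -/
abbrev P (n r s t : ℕ) : Type :=
  FreeGroup (Fin 3) ⧸ Subgroup.normalClosure
    ((Set.range fun w : FreeGroup (Fin 3) => w ^ n) ∪
      {FreeGroup.of 0 ^ r, FreeGroup.of 1 ^ s, FreeGroup.of 2 ^ t})

theorem P_pow (n r s t : ℕ) (x : P n r s t) : x ^ n = 1 := by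
  obtain ⟨w, rfl⟩ := QuotientGroup.mk_surjective x
  rw [← QuotientGroup.mk_pow, QuotientGroup.eq_one_iff]
  exact Subgroup.subset_normalClosure (Or.inl ⟨w, rfl⟩)

theorem P_finite (n r s t : ℕ) (h : LocFin n) : Finite (P n r s t) := by
  have hf : Finite (Bu 3 n) := x_LFD.2.1 n 3 h
  have hle : Subgroup.normalClosure (Set.range fun w : FreeGroup (Fin 3) => w ^ n) ≤
      Subgroup.normalClosure ((Set.range fun w : FreeGroup (Fin 3) => w ^ n) ∪
      {FreeGroup.of 0 ^ r, FreeGroup.of 1 ^ s, FreeGroup.of 2 ^ t}) :=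
    Subgroup.normalClosure_mono Set.subset_union_left
  let f : Bu 3 n →* P n r s t := QuotientGroup.lift _ (QuotientGroup.mk' _) (fun w hw =>
    (QuotientGroup.eq_one_iff w).2 (hle hw))
  refine Finite.of_surjective f ?_
  intro x
  obtain ⟨w, rfl⟩ := QuotientGroup.mk_surjective x
  exact ⟨QuotientGroup.mk w, rfl⟩

/-- the group generated by elements of the given orders is a quotient -/
theorem P_quot (p q α β : ℕ) (hp : p.Prime) (hq : q.Prime) (r s t : ℕ)
    (hfin : Finite (P (p ^ α * q ^ β) r s t)) : ∃ m : ℕ, ∀ (G : Type) [Group G],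
    (∀ x : G, x ^ (p ^ α * q ^ β) = 1) → ∀ a x y : G, a ^ r = 1 → x ^ s = 1 → y ^ t = 1 →
    Finite (c3 a x y) ∧ Group.IsSolvable (c3 a x y) ∧ DD (c3 a x y) m = ⊥ := by
  have hsol : Group.IsSolvable (P (p ^ α * q ^ β) r s t) := by
    obtain ⟨c, e, hce⟩ := x_CRD (P (p ^ α * q ^ β) r s t) p q α β hp hq (P_pow _ _ _ _)
    exact x_BUR _ p q c e hp hq hce
  obtain ⟨m, hm⟩ := x_SOLH (P (p ^ α * q ^ β) r s t) hfin hsol
  refine ⟨m, fun G _ hG a x y ha hx hy => ?_⟩
  let f0 : FreeGroup (Fin 3) →* G := FreeGroup.lift ![a, x, y]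
  have hker : Subgroup.normalClosure
      ((Set.range fun w : FreeGroup (Fin 3) => w ^ (p ^ α * q ^ β)) ∪
      {FreeGroup.of 0 ^ r, FreeGroup.of 1 ^ s, FreeGroup.of 2 ^ t}) ≤ f0.ker := by
    apply Subgroup.normalClosure_le_normal
    rintro w (⟨w, rfl⟩ | hw)
    · rw [SetLike.mem_coe, MonoidHom.mem_ker, map_pow, hG]
    · simp only [Set.mem_insert_iff, Set.mem_singleton_iff] at hw
      rw [SetLike.mem_coe, MonoidHom.mem_ker]
      rcases hw with rfl | rfl | rfl
      · simp [f0, ha]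
      · simp [f0, hx]
      · simp [f0, hy]
  let f : P (p ^ α * q ^ β) r s t →* G := QuotientGroup.lift _ f0 (fun w hw => hker hw)
  have hrange : f.range = c3 a x y := by
    have e1 : f.range = f0.range := by
      ext g
      constructor
      · rintro ⟨w, rfl⟩
        obtain ⟨w, rfl⟩ := QuotientGroup.mk_surjective w
        exact ⟨w, rfl⟩
      · rintro ⟨w, rfl⟩
        exact ⟨(w : P (p ^ α * q ^ β) r s t), rfl⟩
    rw [e1, c3]
    have e2 : f0.range = Subgroup.closure (Set.range ![a, x, y]) := by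
      exact FreeGroup.range_lift_eq_closure
    rw [e2]
    congr 1
    ext g
    simp only [Set.mem_range, Fin.exists_fin_succ, Set.mem_insert_iff, Set.mem_singleton_iff]
    simp [eq_comm]
  have hfin' : Finite f.range := by
    have : Finite (Set.range f) := Set.finite_range f
    exact this
  refine ⟨hrange ▸ hfin', ?_, ?_⟩
  · rw [← hrange]
    exact Group.isSolvable_of_surjective f.rangeRestrict_surjective
  · have h3 := x_MAPS (P (p ^ α * q ^ β) r s t) G f (fun w => isOfFinOrder_of_finite w) ⊤ m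
    rw [hm, Subgroup.map_bot, ← MonoidHom.range_eq_map, hrange] at h3
    exact h3.symm

theorem DD_bot_mono {G : Type} [Group G] (A : Subgroup G) (m k : ℕ) (h : DD A m = ⊥) :
    DD A (m + k) = ⊥ := by
  induction k with
  | zero => exact h
  | succ k ih =>
    have := (x_MON G).2.1 A (m + k)
    rw [ih] at this
    exact le_bot_iff.1 this

theorem main_iff (p q α β : ℕ) (hp : p.Prime) (hq : q.Prime) (hpq : p ≠ q)
    (hl1 : LocFin (p ^ α)) (hl2 : LocFin (q ^ β))
    (hf1 : Finite (P (p ^ α * q ^ β) (p ^ α) (q ^ β) (p ^ α)))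
    (hf2 : Finite (P (p ^ α * q ^ β) (p ^ α) (q ^ β) (q ^ β))) : LocFin (p ^ α * q ^ β) := by
  obtain ⟨m1, h1⟩ := P_quot p q α β hp hq _ _ _ hf1
  obtain ⟨m2, h2⟩ := P_quot p q α β hp hq _ _ _ hf2
  intro G _ hG
  refine ind p q α β hp hq hpq hl1 hl2 (m1 + m2) G hG ?_
  intro a x y ha hx hy
  rcases hy with hy | hy
  · obtain ⟨e1, e2, e3⟩ := h1 G hG a x y ha hx hy
    exact ⟨e1, e2, DD_bot_mono _ _ _ e3⟩
  · obtain ⟨e1, e2, e3⟩ := h2 G hG a x y ha hx hy
    refine ⟨e1, e2, ?_⟩
    rw [add_comm]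
    exact DD_bot_mono _ _ _ e3

/-- a finite soluble group of order at most `N` has height at most `N` -/
theorem DD_card {F : Type} [Group F] [Finite F] (hs : Group.IsSolvable F) (A : Subgroup F) (k : ℕ) :
    DD A k = ⊥ ∨ Nat.card (DD A k) + k ≤ Nat.card A := by
  induction k with
  | zero => exact Or.inr le_rfl
  | succ k ih =>
    rcases ih with h | h
    · exact Or.inl (DD_bot_mono A k 1 h)
    · by_cases h0 : DD A k = ⊥
      · exact Or.inl (DD_bot_mono A k 1 h0)
      · right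
        have h1 : DD A (k + 1) < DD A k :=
          lt_of_le_of_lt (TSOLH.NR_le (DD A k)) (Group.IsSolvable.commutator_lt_of_ne_bot h0)
        have h2 : Nat.card (DD A (k + 1)) < Nat.card (DD A k) := by
          have h3 : Nat.card (DD A (k + 1)) ≤ Nat.card (DD A k) := Subgroup.card_le_of_le h1.le
          refine lt_of_le_of_ne h3 fun h4 => h1.ne ?_
          exact Subgroup.eq_of_le_of_card_ge h1.le h4.ge
        omega

theorem DD_card' {F : Type} [Group F] [Finite F] (hs : Group.IsSolvable F) (A : Subgroup F) (N : ℕ)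
    (hN : Nat.card A ≤ N) : DD A N = ⊥ := by
  rcases DD_card hs A N with h | h
  · exact h
  · have : 0 < Nat.card (DD A N) := Nat.card_pos
    omega

theorem group_level (p q α β : ℕ) (hp : p.Prime) (hq : q.Prime) (hpq : p ≠ q)
    (hl1 : LocFin (p ^ α)) (hl2 : LocFin (q ^ β)) (G : Type) [Group G]
    (hG : ∀ x : G, x ^ (p ^ α * q ^ β) = 1)
    (h3 : ∀ a x y : G, a ^ p ^ α = 1 → x ^ q ^ β = 1 → (y ^ p ^ α = 1 ∨ y ^ q ^ β = 1) →
      Finite (c3 a x y)) (N : ℕ)
    (h2 : ∀ a x : G, a ^ p ^ α = 1 → x ^ q ^ β = 1 → Nat.card (c2 a x) ≤ N) : LF G := by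
  refine ind p q α β hp hq hpq hl1 hl2 N G hG ?_
  intro a x y ha hx hy
  have hf : Finite (c3 a x y) := h3 a x y ha hx hy
  have hE : ∀ g : c3 a x y, g ^ (p ^ α * q ^ β) = 1 := fun g => by
    apply (c3 a x y).subtype_injective
    rw [map_pow, map_one]
    exact hG _
  have hs : Group.IsSolvable (c3 a x y) := by
    obtain ⟨c, e, hce⟩ := x_CRD (c3 a x y) p q α β hp hq hE
    exact x_BUR _ p q c e hp hq hce
  refine ⟨hf, hs, ?_⟩
  have h7 : DD (⊤ : Subgroup (c3 a x y)) N = ⊥ := by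
    apply two1 x_TWOA x_TWOB x_MAPI x_MAPS x_MON x_SZ x_CNT x_SYL p q α β hp hq hpq _
      (c3 a x y) hf hs hE rfl N
    intro b z hb hz
    apply DD_card' hs
    have e1 : Nat.card (c2 b z) = Nat.card ((c2 b z).map (c3 a x y).subtype) :=
      (Subgroup.card_map_of_injective (c3 a x y).subtype_injective).symm
    rw [e1, map_c2]
    exact h2 _ _ (by rw [← map_pow, hb, map_one]) (by rw [← map_pow, hz, map_one])
  have h11 := x_MAPI (c3 a x y) G (c3 a x y).subtype (c3 a x y).subtype_injective ⊤ N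
  rw [h7, Subgroup.map_bot, ← MonoidHom.range_eq_map, Subgroup.range_subtype] at h11
  exact h11.symm

end Pool.Agent.H918R3.BB
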