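import Pool.Agent.H32BU.TTWO
import Pool.Agent.H918R3.BB.Pair

set_option autoImplicit false

/-!
# The height of a finite group of exponent `p ^ α q ^ β` is detected on the subgroups generated by a
`p`-element and a `q`-element
-/

namespace Pool.Agent.H918R3.BB

open Pool.Agent.H32BU

/-- `r`-elements lift to `r`-elements. -/
theorem lift_pow {G H : Type} [Group G] [Group H] (f : G →* H) (hf : Function.Surjective f)
    (r s : ℕ) (hrs : Nat.Coprime r s) (hG : ∀ g : G, g ^ (r * s) = 1) (a' : H)
    (ha' : a' ^ r = 1) : ∃ a : G, a ^ r = 1 ∧ f a = a' := by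
  obtain ⟨g, rfl⟩ := hf a'
  obtain ⟨T, hT1, hT2⟩ := Nat.chineseRemainder hrs 1 0
  obtain ⟨t, ht⟩ := (Nat.modEq_zero_iff_dvd).1 hT2
  refine ⟨g ^ T, ?_, ?_⟩
  · rw [← pow_mul, ht, show s * t * r = (r * s) * t by ring, pow_mul, hG, one_pow]
  · rw [map_pow]
    have := pow_eq_pow_iff_modEq (x := f g) (n := T) (m := 1)
    have h' : T ≡ 1 [MOD orderOf (f g)] := hT1.of_dvd (orderOf_dvd_of_pow_eq_one ha')
    have h'' := this.2 h'
    rwa [pow_one] at h''

/-- A product of an `r`-element and an element of a normal elementary abelian `r`-subgroup. -/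
theorem mul_pow_one {F : Type} [Group F] (V : Subgroup F) [V.Normal] (r k n' : ℕ) (hr : r.Prime)
    (hexp : ∀ v ∈ V, v ^ r = 1) (hc : Nat.Coprime n' r) (hF : ∀ g : F, g ^ (r ^ k * n') = 1)
    (x v : F) (hx : x ^ r ^ k = 1) (hv : v ∈ V) : (x * v) ^ r ^ k = 1 := by
  have h1 : (x * v) ^ r ^ k ∈ V := by
    rw [← QuotientGroup.eq_one_iff, QuotientGroup.mk_pow, QuotientGroup.mk_mul,
      (QuotientGroup.eq_one_iff v).2 hv, mul_one, ← QuotientGroup.mk_pow, hx]
    rfl
  refine TPAIR.eq_one_of_coprime hc ?_ (hexp _ h1)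
  rw [← pow_mul, hF]

theorem two1 (hA : S_TWOA) (hB : S_TWOB) (hI : S_MAPI) (hS : S_MAPS)
    (hM : S_MON) (h1 : S_SZ) (h2 : S_CNT) (h5 : S_SYL) (p q α β : ℕ) (hp : p.Prime) (hq : q.Prime)
    (hpq : p ≠ q) (N : ℕ) : ∀ (F : Type) [Group F], Finite F → Group.IsSolvable F →
    (∀ g : F, g ^ (p ^ α * q ^ β) = 1) → Nat.card F = N →
    ∀ m : ℕ, (∀ a x : F, a ^ p ^ α = 1 → x ^ q ^ β = 1 → DD (c2 a x) m = ⊥) →
    DD (⊤ : Subgroup F) m = ⊥ := by
  have hcop1 : Nat.Coprime p q := (Nat.coprime_primes hp hq).2 hpq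
  have hcopab : Nat.Coprime (p ^ α) (q ^ β) := Nat.Coprime.pow _ _ hcop1
  induction N using Nat.strong_induction_on with
  | _ N ih =>
  intro F _ hfin hsol hE hN m hm
  cases m with
  | zero =>
    have hpt : ∀ a : F, a ^ p ^ α = 1 → a = 1 := by
      intro a ha
      have h1 : a ∈ c2 a 1 := Subgroup.subset_closure (by simp)
      have h2 : DD (c2 a 1) 0 = c2 a 1 := rfl
      rw [← h2, hm a 1 ha (one_pow _)] at h1
      exact Subgroup.mem_bot.1 h1
    have hqt : ∀ a : F, a ^ q ^ β = 1 → a = 1 := by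
      intro a ha
      have h1 : a ∈ c2 1 a := Subgroup.subset_closure (by simp)
      have h2 : DD (c2 1 a) 0 = c2 1 a := rfl
      rw [← h2, hm 1 a (one_pow _) ha] at h1
      exact Subgroup.mem_bot.1 h1
    rw [eq_bot_iff]
    intro a _
    rw [Subgroup.mem_bot]
    apply hqt a
    apply hpt
    rw [← pow_mul, mul_comm, hE]
  | succ m =>
    by_contra hne
    have hK : ∀ K : Subgroup F, K.Normal → K ≠ ⊥ → DD (⊤ : Subgroup F) (m + 1) ≤ K := by
      intro K hKn hK0
      have := hKn
      have hcard : Nat.card (F ⧸ K) < N := by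
        have h1 := Subgroup.card_eq_card_quotient_mul_card_subgroup K
        have h2 : 1 < Nat.card K := by
          rw [Subgroup.one_lt_card_iff_ne_bot]
          exact hK0
        have h3 : 0 < Nat.card (F ⧸ K) := Nat.card_pos
        rw [hN] at h1
        rw [h1]
        nlinarith
      have htor : ∀ x : F, IsOfFinOrder x := fun x => isOfFinOrder_of_finite x
      have h4 := ih _ hcard (F ⧸ K) inferInstance inferInstance (by
        intro g'
        obtain ⟨g, rfl⟩ := QuotientGroup.mk'_surjective K g'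
        rw [← map_pow, hE, map_one]) rfl (m + 1) (by
        intro a' x' ha' hx'
        obtain ⟨a, ha, rfl⟩ := lift_pow (QuotientGroup.mk' K) (QuotientGroup.mk'_surjective K)
          (p ^ α) (q ^ β) hcopab hE a' ha'
        obtain ⟨x, hx, rfl⟩ := lift_pow (QuotientGroup.mk' K) (QuotientGroup.mk'_surjective K)
          (q ^ β) (p ^ α) hcopab.symm (fun g => by rw [mul_comm]; exact hE g) x' hx'
        rw [← TTWO.c2_map, ← hS F (F ⧸ K) (QuotientGroup.mk' K) htor (c2 a x) (m + 1),
          hm a x ha hx, Subgroup.map_bot])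
      have h5 := hS F (F ⧸ K) (QuotientGroup.mk' K) htor ⊤ (m + 1)
      rw [Subgroup.map_top_of_surjective _ (QuotientGroup.mk'_surjective K), h4,
        Subgroup.map_eq_bot_iff, QuotientGroup.ker_mk'] at h5
      exact h5
    obtain ⟨r, S, hr, hcomm, hexp, hStop, hsup, hfaith⟩ := hA F hfin hsol m hne hK
    have hScard : Nat.card S < N := by
      rw [← hN]
      refine lt_of_le_of_ne (Subgroup.card_le_card_group S) fun h => hStop ?_
      exact Subgroup.eq_top_of_card_eq S h
    have hinj : Function.Injective S.subtype := S.subtype_injective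
    have hpush : ∀ (A : Subgroup S) (k : ℕ), DD (A.map S.subtype) k = ⊥ ↔ DD A k = ⊥ := by
      intro A k
      rw [← hI S F S.subtype hinj A k]
      exact Subgroup.map_eq_bot_iff_of_injective _ hinj
    have htop : (⊤ : Subgroup S).map S.subtype = S := by
      rw [← MonoidHom.range_eq_map, Subgroup.range_subtype]
    have hSE : ∀ g : S, g ^ (p ^ α * q ^ β) = 1 := fun g => by
      apply hinj
      rw [map_pow, map_one]
      exact hE _
    have hDS : DD S (m + 1) = ⊥ := by
      have h1 := ih _ hScard S inferInstance inferInstance hSE rfl (m + 1) (by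
        intro a x ha hx
        rw [← hpush, TTWO.c2_map]
        exact hm _ _ (by rw [← map_pow, ha, map_one]) (by rw [← map_pow, hx, map_one]))
      rw [← hpush, htop] at h1
      exact h1
    obtain ⟨hSm, hcop⟩ := hB F m r S hfin hr hne hK hcomm hexp hsup hfaith hDS
    have hex : ∃ a x : S, a ^ p ^ α = 1 ∧ x ^ q ^ β = 1 ∧ DD (c2 a x) m ≠ ⊥ := by
      by_contra hcon
      push Not at hcon
      apply hSm
      have h1 := ih _ hScard S inferInstance inferInstance hSE rfl m hcon
      rw [← hpush, htop] at h1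
      exact h1
    obtain ⟨a, x, ha, hx, hax⟩ := hex
    apply hax
    rw [← hpush, TTWO.c2_map]
    have ha1 : (S.subtype a) ^ p ^ α = 1 := by rw [← map_pow, ha, map_one]
    have hx1 : (S.subtype x) ^ q ^ β = 1 := by rw [← map_pow, hx, map_one]
    have hle : DD (c2 (S.subtype a) (S.subtype x)) m ≤ DD S m := by
      apply (hM F).1
      unfold c2
      rw [Subgroup.closure_le]
      rintro y hy
      rcases hy with rfl | hy
      · exact a.2
      · rw [Set.mem_singleton_iff] at hy
        subst hy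
        exact x.2
    have hVn : (DD (⊤ : Subgroup F) (m + 1)).Normal := (hM F).2.2.2.1 ⊤ inferInstance (m + 1)
    -- the prime `r` is `p` or `q`
    have hrpq : r = p ∨ r = q := by
      by_contra hcon
      push Not at hcon
      apply hne
      rw [eq_bot_iff]
      intro v hv
      rw [Subgroup.mem_bot]
      have hc : Nat.Coprime (p ^ α * q ^ β) r :=
        Nat.Coprime.mul_left (Nat.Coprime.pow_left _ ((Nat.coprime_primes hp hr).2
          (fun h => hcon.1 h.symm))) (Nat.Coprime.pow_left _ ((Nat.coprime_primes hq hr).2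
          (fun h => hcon.2 h.symm)))
      exact TPAIR.eq_one_of_coprime hc (hE v) (hexp v hv)
    rcases hrpq with rfl | rfl
    · -- `V` is a `p`-group: change `a`
      have hsym : c2 (S.subtype x) (S.subtype a) = c2 (S.subtype a) (S.subtype x) := by
        unfold c2; rw [Set.pair_comm]
      rw [← hsym] at hle ⊢
      refine pair1 h1 h2 hS hM h5 (DD ⊤ (m + 1)) r m α _ _ hr hVn hcomm hexp
        (fun b hb => hcop b (hle hb))
        (fun b hb hv => hfaith b (TTWO.DD_le hM S m (hle hb)) hv) ha1 ?_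
      intro v hv
      have hsym2 : c2 (S.subtype x) (S.subtype a * v) = c2 (S.subtype a * v) (S.subtype x) := by
        unfold c2; rw [Set.pair_comm]
      rw [hsym2]
      apply hm _ _ _ hx1
      exact mul_pow_one _ r α (q ^ β) hr hexp (Nat.Coprime.pow_left _ hcop1.symm) hE _ v ha1 hv
    · refine pair1 h1 h2 hS hM h5 (DD ⊤ (m + 1)) r m β _ _ hr hVn hcomm hexp
        (fun b hb => hcop b (hle hb))
        (fun b hb hv => hfaith b (TTWO.DD_le hM S m (hle hb)) hv) hx1 ?_
      intro v hv
      apply hm _ _ ha1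
      exact mul_pow_one _ r β (p ^ α) hr hexp (Nat.Coprime.pow_left _ hcop1)
        (fun g => by rw [mul_comm]; exact hE g) _ v hx1 hv

end Pool.Agent.H918R3.BB
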