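import Pool.Agent.H32BU.All
import Pool.Agent.H918R3.BB.Two

set_option autoImplicit false

/-!
# Induction on the height, for three generators of prime power order
-/

namespace Pool.Agent.H918R3.BB

open Pool.Agent.H32BU

/-- The subgroups generated by a `p`-element, a `q`-element and a further `p`- or `q`-element are
finite and soluble of height at most `m`. -/
def Cond (r s : ℕ) (G : Type) [Group G] (m : ℕ) : Prop :=
  ∀ a x y : G, a ^ r = 1 → x ^ s = 1 → (y ^ r = 1 ∨ y ^ s = 1) →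
    Finite (c3 a x y) ∧ Group.IsSolvable (c3 a x y) ∧ DD (c3 a x y) m = ⊥

theorem qp_left {p q α β : ℕ} (hp : p.Prime) (hq : q.Prime) (hpq : p ≠ q) :
    qp p (p ^ α * q ^ β) = p ^ α := by
  unfold qp
  rw [Nat.factorization_mul (pow_pos hp.pos _).ne' (pow_pos hq.pos _).ne',
    Finsupp.add_apply, hp.factorization_pow, hq.factorization_pow, Finsupp.single_eq_same,
    Finsupp.single_eq_of_ne hpq, add_zero]

theorem qp_other {p q r α β : ℕ} (hp : p.Prime) (hq : q.Prime) (h1 : r ≠ p)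
    (h2 : r ≠ q) : qp r (p ^ α * q ^ β) = 1 := by
  unfold qp
  rw [Nat.factorization_mul (pow_pos hp.pos _).ne' (pow_pos hq.pos _).ne',
    Finsupp.add_apply, hp.factorization_pow, hq.factorization_pow, Finsupp.single_eq_of_ne h1,
    Finsupp.single_eq_of_ne h2, add_zero, pow_zero]

theorem step (p q α β : ℕ) (hp : p.Prime) (hq : q.Prime) (hpq : p ≠ q)
    (hl1 : LocFin (p ^ α)) (hl2 : LocFin (q ^ β)) (m : ℕ) (G : Type) [Group G]
    (hG : ∀ x : G, x ^ (p ^ α * q ^ β) = 1) (h : Cond (p ^ α) (q ^ β) G (m + 1)) :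
    ∃ (M : Subgroup G) (_ : M.Normal), LF M ∧ Cond (p ^ α) (q ^ β) (G ⧸ M) m := by
  have hcop1 : Nat.Coprime p q := (Nat.coprime_primes hp hq).2 hpq
  have hcopab : Nat.Coprime (p ^ α) (q ^ β) := Nat.Coprime.pow _ _ hcop1
  have hqp1 : qp p (p ^ α * q ^ β) = p ^ α := qp_left hp hq hpq
  have hqp2 : qp q (p ^ α * q ^ β) = q ^ β := by
    rw [mul_comm]; exact qp_left hq hp hpq.symm
  have hn : 1 ≤ p ^ α * q ^ β := Nat.mul_pos (pow_pos hp.pos _) (pow_pos hq.pos _)
  have hpar : ∀ r : ℕ, r.Prime → LocFin (qp r (p ^ α * q ^ β)) := by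
    intro r hr
    by_cases h1 : r = p
    · subst h1; rw [hqp1]; exact hl1
    · by_cases h2 : r = q
      · subst h2; rw [hqp2]; exact hl2
      · rw [qp_other hp hq h1 h2]; exact x_LFD.2.2.1
  obtain ⟨M, hM, hMl, hMs⟩ := x_MLFV (fun G [Group G] => True)
    ⟨fun _ _ _ _ => trivial, fun _ _ _ _ _ => trivial⟩ (p ^ α * q ^ β) hn
    (fun r hr H _ _ hH => hpar r hr H hH) G trivial
  refine ⟨M, hM, hMl, ?_⟩
  have htor : ∀ x : G, IsOfFinOrder x :=
    fun x => isOfFinOrder_iff_pow_eq_one.2 ⟨p ^ α * q ^ β, by omega, hG x⟩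
  have hle3 : ∀ a x y : G, c2 a x ≤ c3 a x y := by
    intro a x y
    unfold c2 c3
    apply Subgroup.closure_mono
    intro t ht
    simp only [Set.mem_insert_iff, Set.mem_singleton_iff] at ht ⊢
    tauto
  -- two-generator subgroups
  have htwo : ∀ a x : G, a ^ p ^ α = 1 → x ^ q ^ β = 1 → DD (c2 a x) m ≤ M := by
    intro a x ha hx e he
    apply mem_of_parts M _ hn e
    intro r hr
    by_cases hrr : r = p ∨ r = q
    · apply hMs r hr
      have hpe : (e ^ ((p ^ α * q ^ β) / qp r (p ^ α * q ^ β))) ^ qp r (p ^ α * q ^ β) = 1 := by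
        rw [← pow_mul, show (p ^ α * q ^ β) / qp r (p ^ α * q ^ β) * qp r (p ^ α * q ^ β) =
          p ^ α * q ^ β from Nat.div_mul_cancel (Nat.ordProj_dvd _ r), hG]
      refine ⟨hpe, ?_⟩
      intro y hy
      have hy' : y ^ p ^ α = 1 ∨ y ^ q ^ β = 1 := by
        rcases hrr with rfl | rfl
        · rw [hqp1] at hy; exact Or.inl hy
        · rw [hqp2] at hy; exact Or.inr hy
      obtain ⟨hf, hs, hd⟩ := h a x y ha hx hy'
      have hyin : y ∈ c3 a x y := Subgroup.subset_closure (by simp)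
      exact x_COPC G (c3 a x y) hf _ hn (fun t _ => hG t) m hd r hr _
        (Subgroup.pow_mem _ ((x_MON G).1 _ _ (hle3 a x y) m he) _) hpe y hyin hy
    · push Not at hrr
      rw [qp_other hp hq hrr.1 hrr.2, Nat.div_one, hG]
      exact M.one_mem
  have hGM : ∀ g : G ⧸ M, g ^ (p ^ α * q ^ β) = 1 := by
    intro g
    obtain ⟨g, rfl⟩ := QuotientGroup.mk_surjective g
    rw [← QuotientGroup.mk_pow, hG g]
    rfl
  have hl : ∀ a' : G ⧸ M, a' ^ p ^ α = 1 → ∃ a : G, a ^ p ^ α = 1 ∧ (a : G ⧸ M) = a' :=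
    fun a' ha' => lift_pow (QuotientGroup.mk' M) (QuotientGroup.mk'_surjective M) (p ^ α) (q ^ β)
      hcopab hG a' ha'
  have hl' : ∀ a' : G ⧸ M, a' ^ q ^ β = 1 → ∃ a : G, a ^ q ^ β = 1 ∧ (a : G ⧸ M) = a' :=
    fun a' ha' => lift_pow (QuotientGroup.mk' M) (QuotientGroup.mk'_surjective M) (q ^ β) (p ^ α)
      hcopab.symm (fun g => by rw [mul_comm]; exact hG g) a' ha'
  intro a' x' z' ha' hx' hz'
  obtain ⟨a, ha, rfl⟩ := hl a' ha'
  obtain ⟨x, hx, rfl⟩ := hl' x' hx'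
  obtain ⟨z, hz, rfl⟩ : ∃ z : G, (z ^ p ^ α = 1 ∨ z ^ q ^ β = 1) ∧ (z : G ⧸ M) = z' := by
    rcases hz' with hz' | hz'
    · obtain ⟨z, hz, h2⟩ := hl z' hz'
      exact ⟨z, Or.inl hz, h2⟩
    · obtain ⟨z, hz, h2⟩ := hl' z' hz'
      exact ⟨z, Or.inr hz, h2⟩
  obtain ⟨hf, hs, hd⟩ := h a x z ha hx hz
  have hmap : (c3 a x z).map (QuotientGroup.mk' M) =
      c3 (a : G ⧸ M) (x : G ⧸ M) (z : G ⧸ M) := map_c3 _ a x z
  rw [← hmap]
  have hsurj := (QuotientGroup.mk' M).subgroupMap_surjective (c3 a x z)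
  have hf' : Finite ((c3 a x z).map (QuotientGroup.mk' M)) := Finite.of_surjective _ hsurj
  have hs' : Group.IsSolvable ((c3 a x z).map (QuotientGroup.mk' M)) :=
    Group.isSolvable_of_surjective hsurj
  refine ⟨hf', hs', ?_⟩
  set F : Subgroup (G ⧸ M) := (c3 a x z).map (QuotientGroup.mk' M) with hF
  have hFE : ∀ g : F, g ^ (p ^ α * q ^ β) = 1 := fun g => by
    apply F.subtype_injective
    rw [map_pow, map_one]
    exact hGM _
  have h7 : DD (⊤ : Subgroup F) m = ⊥ := by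
    apply two1 x_TWOA x_TWOB x_MAPI x_MAPS x_MON x_SZ x_CNT x_SYL p q α β hp hq hpq _ F hf' hs'
      hFE rfl m
    intro b y hb hy
    have h8 := x_MAPI F (G ⧸ M) F.subtype F.subtype_injective (c2 b y) m
    have h9 : DD ((c2 b y).map F.subtype) m = ⊥ := by
      rw [map_c2]
      obtain ⟨b', hb', hb''⟩ := hl (F.subtype b) (by rw [← map_pow, hb, map_one])
      obtain ⟨y', hy', hy''⟩ := hl' (F.subtype y) (by rw [← map_pow, hy, map_one])
      have h10 : c2 (F.subtype b) (F.subtype y) = (c2 b' y').map (QuotientGroup.mk' M) := by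
        rw [map_c2, ← hb'', ← hy'']
        rfl
      rw [h10, ← x_MAPS G (G ⧸ M) (QuotientGroup.mk' M) htor]
      rw [eq_bot_iff]
      rintro _ ⟨w, hw, rfl⟩
      rw [Subgroup.mem_bot]
      exact (QuotientGroup.eq_one_iff w).2 (htwo b' y' hb' hy' hw)
    rw [h9] at h8
    exact (Subgroup.map_eq_bot_iff_of_injective _ F.subtype_injective).1 h8
  have h11 := x_MAPI F (G ⧸ M) F.subtype F.subtype_injective ⊤ m
  rw [h7, Subgroup.map_bot, ← MonoidHom.range_eq_map, Subgroup.range_subtype] at h11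
  exact h11.symm

theorem ind (p q α β : ℕ) (hp : p.Prime) (hq : q.Prime) (hpq : p ≠ q)
    (hl1 : LocFin (p ^ α)) (hl2 : LocFin (q ^ β)) (m : ℕ) : ∀ (G : Type) [Group G],
    (∀ x : G, x ^ (p ^ α * q ^ β) = 1) → Cond (p ^ α) (q ^ β) G m → LF G := by
  induction m with
  | zero =>
    intro G _ hG h
    have hpt : ∀ a : G, a ^ p ^ α = 1 → a = 1 := by
      intro a ha
      have h1 : a ∈ c3 a 1 1 := Subgroup.subset_closure (by simp)
      have h2 : c3 a 1 1 = ⊥ := (h a 1 1 ha (one_pow _) (Or.inl (one_pow _))).2.2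
      rw [h2] at h1
      exact Subgroup.mem_bot.1 h1
    have hqt : ∀ a : G, a ^ q ^ β = 1 → a = 1 := by
      intro a ha
      have h1 : a ∈ c3 1 a 1 := Subgroup.subset_closure (by simp)
      have h2 : c3 1 a 1 = ⊥ := (h 1 a 1 (one_pow _) ha (Or.inl (one_pow _))).2.2
      rw [h2] at h1
      exact Subgroup.mem_bot.1 h1
    have h0 : ∀ a : G, a = 1 := by
      intro a
      apply hqt a
      apply hpt
      rw [← pow_mul, mul_comm, hG]
    intro S
    have : Subsingleton G := ⟨fun a b => by rw [h0 a, h0 b]⟩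
    infer_instance
  | succ m ih =>
    intro G _ hG h
    obtain ⟨M, hM, hMl, hM3⟩ := step p q α β hp hq hpq hl1 hl2 m G hG h
    refine x_SCH G M hMl (ih (G ⧸ M) ?_ hM3)
    intro x
    obtain ⟨g, rfl⟩ := QuotientGroup.mk_surjective x
    rw [← QuotientGroup.mk_pow, hG g]
    rfl

end Pool.Agent.H918R3.BB
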