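import Pool.Agent.H918R3.BB.Fin

set_option autoImplicit false

/-!
# Transfer to all universes
-/

namespace Pool.Agent.H918R3.BB

open Pool.Agent.H32BU

universe u

theorem group_level_u (p q α β : ℕ) (hp : p.Prime) (hq : q.Prime) (hpq : p ≠ q)
    (hl1 : InL.{u} (p ^ α)) (hl2 : InL.{u} (q ^ β)) (G : Type u) [Group G]
    (hG : ∀ x : G, x ^ (p ^ α * q ^ β) = 1)
    (h3 : ∀ a x y : G, a ^ p ^ α = 1 → x ^ q ^ β = 1 → (y ^ p ^ α = 1 ∨ y ^ q ^ β = 1) →
      Finite (Subgroup.closure {a, x, y}))
    (h2 : ∃ N : ℕ, ∀ a x : G, a ^ p ^ α = 1 → x ^ q ^ β = 1 →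
      Nat.card (Subgroup.closure {a, x}) ≤ N) (S : Set G) (hS : S.Finite) :
    Finite (Subgroup.closure S) := by
  classical
  obtain ⟨N, hN⟩ := h2
  have := hS.to_subtype
  obtain ⟨k, ⟨e⟩⟩ := Finite.exists_equiv_fin S
  let f0 : FreeGroup (Fin k) →* G := FreeGroup.lift fun i => (e.symm i : G)
  let Q : Type := FreeGroup (Fin k) ⧸ f0.ker
  let f : Q →* G := QuotientGroup.kerLift f0
  have hf : Function.Injective f := QuotientGroup.kerLift_injective f0
  have hm3 : ∀ a x y : Q, (c3 a x y).map f = Subgroup.closure {f a, f x, f y} := by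
    intro a x y
    unfold c3
    rw [MonoidHom.map_closure]
    congr 1
    simp [Set.image_insert_eq]
  have hm2 : ∀ a x : Q, (c2 a x).map f = Subgroup.closure {f a, f x} := by
    intro a x
    unfold c2
    rw [MonoidHom.map_closure]
    congr 1
    simp [Set.image_insert_eq]
  have hLF : LF Q := by
    refine group_level p q α β hp hq hpq ((inL_iff x_LFD _).1 hl1) ((inL_iff x_LFD _).1 hl2) Q
      (fun x => hf (by rw [map_pow, map_one]; exact hG _)) ?_ N ?_
    · intro a x y ha hx hy
      have h := h3 (f a) (f x) (f y) (by rw [← map_pow, ha, map_one])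
        (by rw [← map_pow, hx, map_one]) (by
          rcases hy with hy | hy
          · left; rw [← map_pow, hy, map_one]
          · right; rw [← map_pow, hy, map_one])
      rw [← hm3] at h
      exact Finite.of_equiv _ ((c3 a x y).equivMapOfInjective f hf).symm.toEquiv
    · intro a x ha hx
      have h := hN (f a) (f x) (by rw [← map_pow, ha, map_one]) (by rw [← map_pow, hx, map_one])
      rw [← hm2, Subgroup.card_map_of_injective hf] at h
      exact h
  -- `Q` is finite
  have hgen : Subgroup.closure ((Finset.univ.image fun i : Fin k =>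
      (QuotientGroup.mk (FreeGroup.of i) : Q) : Finset Q) : Set Q) = ⊤ := by
    rw [eq_top_iff]
    rintro x -
    obtain ⟨w, rfl⟩ := QuotientGroup.mk_surjective x
    induction w using FreeGroup.induction_on with
    | C1 => exact one_mem _
    | of i => exact Subgroup.subset_closure (by simp)
    | inv_of i hi =>
      have := inv_mem hi
      exact this
    | mul a b ha hb =>
      have := mul_mem ha hb
      exact this
  have hfinQ : Finite Q := by
    have h := hLF (Finset.univ.image fun i : Fin k => (QuotientGroup.mk (FreeGroup.of i) : Q))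
    rw [hgen] at h
    exact Finite.of_equiv _ (Subgroup.topEquiv (G := Q)).toEquiv
  have hr : Subgroup.closure S ≤ f.range := by
    rw [Subgroup.closure_le]
    intro s hs
    refine ⟨QuotientGroup.mk (FreeGroup.of (e ⟨s, hs⟩)), ?_⟩
    change f0 (FreeGroup.of (e ⟨s, hs⟩)) = s
    simp [f0]
  have : Finite f.range := Finite.of_surjective f.rangeRestrict f.rangeRestrict_surjective
  exact Finite.of_injective (Subgroup.inclusion hr) (Subgroup.inclusion_injective hr)

theorem iff_u (p q α β : ℕ) (hp : p.Prime) (hq : q.Prime) (hpq : p ≠ q) :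
    InL.{u} (p ^ α * q ^ β) ↔ InL.{u} (p ^ α) ∧ InL.{u} (q ^ β) ∧
      Finite (P (p ^ α * q ^ β) (p ^ α) (q ^ β) (p ^ α)) ∧
      Finite (P (p ^ α * q ^ β) (p ^ α) (q ^ β) (q ^ β)) := by
  rw [inL_iff x_LFD, inL_iff x_LFD, inL_iff x_LFD]
  constructor
  · intro h
    exact ⟨x_LFD.1 _ _ (dvd_mul_right _ _) h, x_LFD.1 _ _ (dvd_mul_left _ _) h,
      P_finite _ _ _ _ h, P_finite _ _ _ _ h⟩
  · rintro ⟨h1, h2, h3, h4⟩
    exact main_iff p q α β hp hq hpq h1 h2 h3 h4

theorem twelve : InL.{u} 12 ↔ Finite (P 12 4 3 4) ∧ Finite (P 12 4 3 3) := by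
  rw [inL_iff x_LFD]
  constructor
  · intro h
    exact ⟨P_finite _ _ _ _ h, P_finite _ _ _ _ h⟩
  · rintro ⟨h3, h4⟩
    exact main_iff 2 3 2 1 Nat.prime_two Nat.prime_three (by norm_num) x_L34.2 x_L34.1 h3 h4

end Pool.Agent.H918R3.BB
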